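import Pool.Agent.H65.NV.PTargets

/-!
# The average over the discriminant for one ideal
-/

set_option autoImplicit false

open MeasureTheory Set Filter NumberField NumberField.InfinitePlace
open scoped Real nonZeroDivisors

namespace Pool.Agent.H61.NVP_GAV

open Pool.Agent.H65.CM4 Pool.Agent.H61.NVK Pool.Agent.H89.NV Pool.Agent.H65.NV
open Pool.Agent.H89

section

variable {k : Type} [Field k] [NumberField k]

theorem nm_mul (I J : Ideal (𝓞 k)) : nm (I * J) = nm I * nm J := by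
  simp [nm, map_mul]

theorem nm_sq (I : Ideal (𝓞 k)) : nm (I ^ 2) = nm I ^ 2 := by
  simp [nm, map_pow]

theorem nm_ge {I : Ideal (𝓞 k)} (h : I ≠ ⊥) : 1 ≤ nm I := by
  have h1 : Ideal.absNorm I ≠ 0 := by
    rw [Ne, Ideal.absNorm_eq_zero_iff]; exact h
  have h2 : 1 ≤ Ideal.absNorm I := Nat.one_le_iff_ne_zero.2 h1
  unfold nm
  exact_mod_cast h2

theorem ni2 : ni k 2 = Ideal.span {(2 : 𝓞 k)} := by
  unfold ni
  norm_num

end

section

variable {k : Type} [Field k] [NumberField k] [IsTotallyReal k]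

/-- the box -/
def bx (a b : ℝ) : Set (Pl k → ℝ) := Set.pi univ (fun _ => Icc a b)

theorem bx_compact (a b : ℝ) : IsCompact (bx (k := k) a b) :=
  isCompact_univ_pi fun _ => isCompact_Icc

theorem bx_meas (a b : ℝ) : MeasurableSet (bx (k := k) a b) := (bx_compact a b).measurableSet

theorem bx_vol {a b : ℝ} (ha : 0 ≤ a) (hb : 0 ≤ b) :
    volume.real (bx (k := k) a b) ≤ b ^ Fintype.card (Pl k) := by
  rw [Measure.real, bx, volume_pi_pi]
  simp only [Real.volume_Icc]
  rw [Finset.prod_const, Finset.card_univ, ENNReal.toReal_pow]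
  refine pow_le_pow_left₀ ENNReal.toReal_nonneg ?_ _
  exact ENNReal.toReal_le_of_le_ofReal hb (ENNReal.ofReal_le_ofReal (by linarith))

theorem ct_cont (A f : Ideal (𝓞 k)) (hA : 1 ≤ nm A) (hf : 1 ≤ nm f) {a b : ℝ} (ha : 0 < a) :
    ContinuousOn (fun d : Pl k → ℝ => ct A f d) (bx a b) := by
  have hs : ContinuousOn (fun d : Pl k → ℝ => sD d) (bx a b) := by
    apply Continuous.continuousOn
    unfold sD
    exact Real.continuous_sqrt.comp (continuous_finsetProd _ fun v _ => continuous_apply v)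
  have hpos : ∀ d ∈ bx (k := k) a b, sD d / (nm f * nm A) ≠ 0 := by
    intro d hd
    have h1 : 0 < sD d := by
      unfold sD
      apply Real.sqrt_pos.2
      exact Finset.prod_pos fun v _ => lt_of_lt_of_le ha (hd v (mem_univ v)).1
    have : 0 < nm f * nm A := by nlinarith
    positivity
  unfold ct
  refine ContinuousOn.div_const ?_ _
  refine ContinuousOn.mul continuousOn_const ?_
  exact (ContinuousOn.log (hs.div_const _) hpos).add continuousOn_const

end

/-- the average over the discriminant -/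
theorem pf_GAV (k : Type) [Field k] [NumberField k] [IsTotallyReal k] (hEMP : T_EMP k)
    (hREA : T_REA k) (hRSF : T_RSF k) (hEMS : T_EMS k) (hLCU : T_LCU k) (hBSU : T_BSU)
    (hEMB : T_EMB k) : T_GAV k := by
  classical
  intro f η m hf hη hm
  obtain ⟨hE1, -, -, hE4, -, -, -, -, hE9, -, -⟩ := hEMS
  obtain ⟨C1, hC1, hemp⟩ := hEMP m 4 hm (by norm_num)
  obtain ⟨C2, c2, j2, hC2, hc2, hbsu⟩ := hBSU k η hη
  have hcard : Fintype.card (Pl k) = dg k := hEMB.1
  have hdg : 0 < dg k := hEMB.2.1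
  have hdgR : (0 : ℝ) < dg k := by exact_mod_cast hdg
  have hdk : (1 : ℝ) ≤ dk k := by
    have := hEMB.2.2.1
    exact_mod_cast this
  have hsdk : 1 ≤ Real.sqrt (dk k) := Real.one_le_sqrt.2 hdk
  have hnf : 1 ≤ nm f := nm_ge hf
  have hnf0 : 0 < nm f := by linarith
  set n : ℕ := dg k with hn
  set K1 : ℝ := 2 ^ n * C1 * (nm f ^ 2) ^ ((m : ℝ) / n) * (1 + 1 / η) ^ n with hK1
  set K2 : ℝ := C2 * (1 + nm f) ^ j2 * (1 / η) ^ n with hK2
  have hK1p : 0 < K1 := by positivity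
  have hK2p : 0 < K2 := by positivity
  refine ⟨K1 + K2, c2 * (nm f)⁻¹ ^ (1 / (n : ℝ)), j2, by positivity, by positivity, ?_⟩
  intro A J h X ψ T M L S hA hJ hh hT hL hψc hψS hψ0 hXM hXper hX1 hX2 hDB
  have hT0 : 0 < T := by linarith
  have hAn : 1 ≤ nm A := nm_ge hA
  have hJn : 1 ≤ nm J := nm_ge hJ
  have hhn : 1 ≤ nm h := nm_ge hh
  have hM0 : 0 ≤ M := (abs_nonneg _).trans (hXM 0 (Ideal.zero_mem f) 0 (Ideal.zero_mem _))
  have hS0 : 0 ≤ S := (abs_nonneg _).trans (hψS 0)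
  set Λ : Ideal (𝓞 k) := A * f ^ 2 with hΛ
  have hΛ0 : Λ ≠ ⊥ := mul_ne_zero hA (pow_ne_zero 2 hf)
  set B0 : Finset (𝓞 k) := (Rs (ni k 2 * (A * f))).filter (fun b => b ∈ f) with hB0
  set C0 : Finset (𝓞 k) := (Rs (J * Λ)).filter (fun c => c ∈ Λ) with hC0
  have h2ne : ni k 2 * A ≠ ⊥ := by
    refine mul_ne_zero ?_ hA
    rw [ni2]
    intro h0
    have : (2 : 𝓞 k) = 0 := Ideal.span_singleton_eq_bot.1 h0
    exact two_ne_zero this
  obtain ⟨hR1, hR2, -⟩ := hRSF (ni k 2 * A) f h2ne hf B0 (fun x => by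
    rw [hB0, Finset.mem_filter, mul_assoc])
  obtain ⟨-, hR3, -⟩ := hRSF J Λ hJ hΛ0 C0 (fun x => by rw [hC0, Finset.mem_filter])
  have hB0mem : ∀ b ∈ B0, b ∈ f := fun b hb => (Finset.mem_filter.1 hb).2
  have hC0mem : ∀ c ∈ C0, c ∈ Λ := fun c hc => (Finset.mem_filter.1 hc).2
  have hni2 : nm (ni k 2) = 2 ^ n := by
    have := hE9 2
    rw [this]; norm_num
  have hB0card : (B0.card : ℝ) = 2 ^ n * nm A := by rw [hR2, nm_mul, hni2]
  have hrpi : RpI f (Ideal.span {(2 : 𝓞 k)} * (A * f)) B0 := by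
    refine ⟨?_, hB0mem, ?_, ?_⟩
    · exact (Ideal.mul_le_right).trans Ideal.mul_le_right
    · intro x hx
      obtain ⟨r, hr, -⟩ := hR1 x hx
      refine ⟨r, hr.1, ?_⟩
      rw [← ni2, ← mul_assoc]
      exact hr.2
    · intro r hr r' hr' hd
      obtain ⟨r0, -, hu⟩ := hR1 r (hB0mem r hr)
      have e1 := hu r ⟨hr, by rw [sub_self]; exact Ideal.zero_mem _⟩
      have e2 := hu r' ⟨hr', by rw [← ni2, ← mul_assoc] at hd; exact hd⟩
      rw [e1, e2]
  set G1 : 𝓞 k → ℝ := fun b => ∑ c ∈ C0, X b c with hG1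
  have hG1b : ∀ b ∈ f, |G1 b| ≤ nm J * M := by
    intro b hb
    refine (Finset.abs_sum_le_sum_abs _ _).trans ?_
    refine (Finset.sum_le_sum fun c hc => hXM b hb c (hC0mem c hc)).trans ?_
    rw [Finset.sum_const, nsmul_eq_mul, hR3]
  -- the functions
  set φ : 𝓞 k → (Pl k → ℝ) → ℝ := fun b d => ψ d * zf A f (NV.em b) d with hφ
  have hψout : ∀ u : Pl k → ℝ, (∃ v, T / η < |u v|) → ψ u = 0 := by
    intro u ⟨v, hv⟩
    apply hψ0 u
    refine ⟨v, fun hin => ?_⟩
    have h1 : 0 < u v := lt_of_lt_of_le (by positivity) hin.1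
    rw [abs_of_pos h1] at hv
    exact absurd hin.2 (not_le.2 hv)
  -- rearrangement
  obtain ⟨hfin, -⟩ := hLCU ⊤ (fun _ => 0) (T / η) top_ne_bot (by positivity)
  set s : Finset (𝓞 k) := hfin.toFinset with hs
  have hrea := hREA f A (fun D b c => ψ (NV.em D) * (X b c * zf A f (NV.em b) (NV.em D))) s hf hA (by
    intro D b c hD
    have hD' : D ∉ {x : 𝓞 k | x ∈ (⊤ : Ideal (𝓞 k)) ∧ ∀ v, |NV.em x v - 0| ≤ T / η} := by
      intro hin
      exact hD (hfin.mem_toFinset.2 hin)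
    have hex : ∃ v, T / η < |NV.em D v| := by
      by_contra hcon
      push Not at hcon
      exact hD' ⟨Submodule.mem_top, fun v => by rw [sub_zero]; exact hcon v⟩
    simp only [hψout (NV.em D) hex, zero_mul])
  rw [hrea]
  -- the inner sums
  have hem4 : ∀ b c : 𝓞 k, NV.em (4 * c - b ^ 2) = (4 : ℝ) • NV.em c + (-NV.em (b ^ 2)) := by
    intro b c
    have h1 := (hE1 (4 * c) (b ^ 2)).2.2.2
    have h2 := (hE1 4 c).2.1
    have h3 := hE4 4
    rw [h1, h2]
    have h4 : NV.em (4 : 𝓞 k) = fun _ => (4 : ℝ) := by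
      have : ((4 : ℕ) : 𝓞 k) = 4 := by norm_num
      rw [this] at h3
      rw [h3]; norm_num
    rw [h4]
    funext v
    simp [sub_eq_add_neg]
  set P0 : ℝ := 1 / (Real.sqrt (dk k) * 4 ^ n * nm Λ) with hP0
  have hP0nn : 0 ≤ P0 := by
    have := nm_ge hΛ0
    positivity
  have hinner : ∀ b ∈ B0, |(∑' c : 𝓞 k, if c ∈ Λ then
        ψ (NV.em (4 * c - b ^ 2)) * (X b c * zf A f (NV.em b) (NV.em (4 * c - b ^ 2))) else 0) -
      P0 * (G1 b / nm J) * ∫ d, φ b d| ≤
      C1 * M * nm J * nm (J * Λ) ^ ((m : ℝ) / n) * (1 + T / η) ^ n * L := by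
    intro b hb
    have h1 := hemp Λ J (X b) (φ b) 0 (-NV.em (b ^ 2)) (T / η) L M hΛ0 hJ (by positivity) hL
      (by
        intro u ⟨v, hv⟩
        simp only [Pi.zero_apply, sub_zero] at hv
        simp only [hφ, hψout u ⟨v, hv⟩, zero_mul])
      (hDB b (hB0mem b hb)) (fun c hc => hXM b (hB0mem b hb) c hc)
      (fun c hc y hy => hXper b (hB0mem b hb) c hc y hy)
    have e1 : (∑' c : 𝓞 k, if c ∈ Λ then
        ψ (NV.em (4 * c - b ^ 2)) * (X b c * zf A f (NV.em b) (NV.em (4 * c - b ^ 2))) else 0) =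
        ∑' x : 𝓞 k, if x ∈ Λ then X b x * φ b (((4 : ℕ) : ℝ) • NV.em x + -NV.em (b ^ 2)) else 0 := by
      refine tsum_congr fun c => ?_
      by_cases hc : c ∈ Λ
      · rw [if_pos hc, if_pos hc]
        simp only [hφ]
        rw [hem4 b c]
        have : ((4 : ℕ) : ℝ) = 4 := by norm_num
        rw [this]; ring
      · rw [if_neg hc, if_neg hc]
    rw [e1]
    have e2 : P0 = 1 / (Real.sqrt (dk k) * ((4 : ℕ) : ℝ) ^ dg k * nm Λ) := by
      rw [hP0, Nat.cast_ofNat]
    rw [e2]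
    exact h1
  -- integrability
  have hbxz : ∀ u, u ∉ bx (k := k) (η * T) (T / η) → ψ u = 0 := by
    intro u hu
    apply hψ0 u
    by_contra hcon
    push Not at hcon
    exact hu fun v _ => hcon v
  have hφi : ∀ b ∈ B0, Integrable (φ b) := by
    intro b hb
    refine (hDB b (hB0mem b hb)).cont.integrable_of_hasCompactSupport ?_
    refine HasCompactSupport.intro (bx_compact (k := k) (η * T) (T / η)) fun u hu => ?_
    simp only [hbxz u hu, zero_mul]
  have hcti : Integrable (fun d => ψ d * ct A f d) := by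
    have h1 : IntegrableOn (fun d => ψ d * ct A f d) (bx (k := k) (η * T) (T / η)) :=
      (hψc.continuousOn.mul (ct_cont A f hAn hnf (by positivity))).integrableOn_compact
        (bx_compact _ _)
    refine (integrableOn_iff_integrable_of_support_subset ?_).1 h1
    intro u hu
    by_contra hcon
    exact hu (by simp only [hbxz u hcon, zero_mul])
  -- the difference of the main terms
  set err : (Pl k → ℝ) → ℝ := fun d =>
    (∑ b ∈ B0, G1 b * zf A f (NV.em b) d) - ct A f d * ∑ b ∈ B0, G1 b with herr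
  have herri : Integrable (fun d => ψ d * err d) := by
    have e : (fun d => ψ d * err d) = fun d => (∑ b ∈ B0, G1 b * φ b d) -
        (ψ d * ct A f d) * ∑ b ∈ B0, G1 b := by
      funext d
      simp only [herr, hφ]
      rw [mul_sub, Finset.mul_sum]
      congr 1
      · exact Finset.sum_congr rfl fun b _ => by ring
      · ring
    rw [e]
    exact (integrable_finset_sum _ fun b hb => (hφi b hb).const_mul _).sub (hcti.mul_const _)
  have hmain : ∑ b ∈ B0, G1 b * ∫ d, φ b d =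
      (∑ b ∈ B0, G1 b) * (∫ d, ψ d * ct A f d) + ∫ d, ψ d * err d := by
    have e : ∫ d, ψ d * err d = (∫ d, ∑ b ∈ B0, G1 b * φ b d) -
        ∫ d, (ψ d * ct A f d) * ∑ b ∈ B0, G1 b := by
      rw [← integral_sub (integrable_finset_sum _ fun b hb => (hφi b hb).const_mul _)
        (hcti.mul_const _)]
      refine integral_congr_ae (Eventually.of_forall fun d => ?_)
      simp only [herr, hφ]
      rw [mul_sub, Finset.mul_sum]
      congr 1
      · exact Finset.sum_congr rfl fun b _ => by ring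
      · ring
    rw [e, integral_finset_sum _ fun b hb => (hφi b hb).const_mul _, integral_mul_const]
    have e2 : ∑ b ∈ B0, ∫ d, G1 b * φ b d = ∑ b ∈ B0, G1 b * ∫ d, φ b d :=
      Finset.sum_congr rfl fun b _ => integral_const_mul _ _
    rw [e2]; ring
  -- the bound of the error
  set EX : ℝ := Real.exp (-(c2 * (nm f)⁻¹ ^ (1 / (n : ℝ)) *
    (T ^ ((n : ℝ) / 2) / nm h) ^ (1 / (n : ℝ)))) with hEX
  have herrb : ∀ d ∈ bx (k := k) (η * T) (T / η), |err d| ≤
      C2 * (nm J * M) * ((1 + nm f) * (nm A + T)) ^ j2 * EX := by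
    intro d hd
    have h1 := hbsu ⟨A, mem_nonZeroDivisors_of_ne_zero hA⟩ ⟨f, mem_nonZeroDivisors_of_ne_zero hf⟩
      ⟨h, mem_nonZeroDivisors_of_ne_zero hh⟩ B0 d T (nm J * M) G1 hT
      (fun v => ⟨(hd v (mem_univ v)).1, (hd v (mem_univ v)).2⟩) hrpi
      (fun b hb z hz => hX1 b hb z (by rw [ni2]; exact hz))
      (fun b hb z hz => hX2 b hb z hz) hG1b
    refine le_trans h1 ?_
    have e1 : (T ^ ((dg k : ℝ) / 2) / (nm f * nm h)) ^ (1 / (dg k : ℝ)) =
        (nm f)⁻¹ ^ (1 / (n : ℝ)) * (T ^ ((n : ℝ) / 2) / nm h) ^ (1 / (n : ℝ)) := by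
      rw [← Real.mul_rpow (by positivity) (by positivity)]
      congr 1
      field_simp
      rfl
    have e2 : Real.exp (-(c2 * (T ^ ((dg k : ℝ) / 2) / (nm f * nm h)) ^ (1 / (dg k : ℝ)))) = EX := by
      rw [e1, hEX]
      congr 1
      ring
    rw [e2]
    have e3 : (nm A + nm f + T) ^ j2 ≤ ((1 + nm f) * (nm A + T)) ^ j2 := by
      refine pow_le_pow_left₀ (by positivity) ?_ _
      nlinarith
    have hEX0 : 0 < EX := Real.exp_pos _
    gcongr
  have hint : |∫ d, ψ d * err d| ≤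
      S * (C2 * (nm J * M) * ((1 + nm f) * (nm A + T)) ^ j2 * EX) * (T / η) ^ n := by
    have hEX0 : 0 < EX := Real.exp_pos _
    have e1 : ∫ d, ψ d * err d = ∫ d in bx (k := k) (η * T) (T / η), ψ d * err d := by
      refine (setIntegral_eq_integral_of_forall_compl_eq_zero fun u hu => ?_).symm
      simp only [hbxz u hu, zero_mul]
    rw [e1]
    have h2 := norm_setIntegral_le_of_norm_le_const
      (μ := volume) (s := bx (k := k) (η * T) (T / η)) (f := fun d => ψ d * err d)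
      (C := S * (C2 * (nm J * M) * ((1 + nm f) * (nm A + T)) ^ j2 * EX))
      (bx_compact (k := k) _ _).measure_lt_top (fun d hd => by
        rw [Real.norm_eq_abs, abs_mul]
        exact mul_le_mul (hψS d) (herrb d hd) (abs_nonneg _) hS0)
    rw [Real.norm_eq_abs] at h2
    refine h2.trans ?_
    refine mul_le_mul_of_nonneg_left ?_ (by positivity)
    have h3 := bx_vol (k := k) (a := η * T) (b := T / η) (by positivity) (by positivity)
    rw [hcard] at h3
    exact h3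
  -- assembly
  have hnΛ : nm Λ = nm A * nm f ^ 2 := by rw [hΛ, nm_mul, nm_sq]
  have hkf : kf f / 2 ^ dg k * ((∑ b ∈ B0, G1 b) / (2 ^ dg k * nm A * nm J)) *
      (∫ d, ψ d * ct A f d) = P0 * (1 / nm J) * ((∑ b ∈ B0, G1 b) * ∫ d, ψ d * ct A f d) := by
    rw [hP0, hnΛ, kf]
    have h4 : (4 : ℝ) ^ n = 2 ^ n * 2 ^ n := by rw [← mul_pow]; norm_num
    rw [h4, ← hn]
    have hs0 : Real.sqrt (dk k) ≠ 0 := by positivity
    have : nm A ≠ 0 := by positivity
    have : nm J ≠ 0 := by positivity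
    have : nm f ≠ 0 := by positivity
    field_simp
  rw [hkf]
  have hsplit : (∑ b ∈ B0, ∑' c : 𝓞 k, if c ∈ Λ then
        ψ (NV.em (4 * c - b ^ 2)) * (X b c * zf A f (NV.em b) (NV.em (4 * c - b ^ 2))) else 0) -
      P0 * (1 / nm J) * ((∑ b ∈ B0, G1 b) * ∫ d, ψ d * ct A f d) =
      (∑ b ∈ B0, ((∑' c : 𝓞 k, if c ∈ Λ then
        ψ (NV.em (4 * c - b ^ 2)) * (X b c * zf A f (NV.em b) (NV.em (4 * c - b ^ 2))) else 0) -
        P0 * (G1 b / nm J) * ∫ d, φ b d)) + P0 * (1 / nm J) * ∫ d, ψ d * err d := by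
    have e1 : P0 * (1 / nm J) * ∫ d, ψ d * err d = P0 * (1 / nm J) *
        ((∑ b ∈ B0, G1 b * ∫ d, φ b d) - (∑ b ∈ B0, G1 b) * ∫ d, ψ d * ct A f d) := by
      rw [hmain]; ring
    rw [e1, Finset.sum_sub_distrib, mul_sub, Finset.mul_sum]
    have e2 : ∑ b ∈ B0, P0 * (G1 b / nm J) * ∫ d, φ b d =
        ∑ b ∈ B0, P0 * (1 / nm J) * (G1 b * ∫ d, φ b d) :=
      Finset.sum_congr rfl fun b _ => by ring
    rw [e2]; ring
  rw [hsplit]
  refine (abs_add_le _ _).trans ?_
  have hpart1 : |∑ b ∈ B0, ((∑' c : 𝓞 k, if c ∈ Λ then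
        ψ (NV.em (4 * c - b ^ 2)) * (X b c * zf A f (NV.em b) (NV.em (4 * c - b ^ 2))) else 0) -
        P0 * (G1 b / nm J) * ∫ d, φ b d)| ≤
      K1 * (M * T ^ n * (nm A * nm J * nm (J * A) ^ ((m : ℝ) / n) * L)) := by
    refine (Finset.abs_sum_le_sum_abs _ _).trans ?_
    refine (Finset.sum_le_sum hinner).trans ?_
    rw [Finset.sum_const, nsmul_eq_mul, hB0card]
    have e1 : nm (J * Λ) ^ ((m : ℝ) / n) =
        nm (J * A) ^ ((m : ℝ) / n) * (nm f ^ 2) ^ ((m : ℝ) / n) := by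
      rw [nm_mul J Λ, hnΛ, ← mul_assoc, ← nm_mul J A]
      exact Real.mul_rpow (by rw [nm_mul]; positivity) (by positivity)
    have e2 : (1 + T / η) ^ n ≤ ((1 + 1 / η) * T) ^ n := by
      refine pow_le_pow_left₀ (by positivity) ?_ _
      have : (1 + 1 / η) * T = T + T / η := by ring
      rw [this]; linarith
    rw [mul_pow] at e2
    rw [e1]
    have hJA : 0 ≤ nm (J * A) := by rw [nm_mul]; positivity
    calc 2 ^ n * nm A * (C1 * M * nm J * (nm (J * A) ^ ((m : ℝ) / n) *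
          (nm f ^ 2) ^ ((m : ℝ) / n)) * (1 + T / η) ^ n * L)
        ≤ 2 ^ n * nm A * (C1 * M * nm J * (nm (J * A) ^ ((m : ℝ) / n) *
          (nm f ^ 2) ^ ((m : ℝ) / n)) * ((1 + 1 / η) ^ n * T ^ n) * L) := by gcongr
      _ = _ := by rw [hK1]; ring
  have hpart2 : |P0 * (1 / nm J) * ∫ d, ψ d * err d| ≤
      K2 * (M * T ^ n * (S * (nm A + T) ^ j2 * EX)) := by
    have hEX0 : 0 < EX := Real.exp_pos _
    rw [abs_mul, abs_of_nonneg (by positivity)]
    refine (mul_le_mul_of_nonneg_left hint (by positivity)).trans ?_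
    have hP1 : P0 ≤ 1 := by
      rw [hP0]
      apply div_le_one_of_le₀
      · have h4 : (1 : ℝ) ≤ 4 ^ n := one_le_pow₀ (by norm_num)
        have h5 := nm_ge hΛ0
        have h6 : 1 ≤ Real.sqrt (dk k) * 4 ^ n := by nlinarith
        nlinarith
      · have h5 := nm_ge hΛ0
        positivity
    have e1 : P0 * (1 / nm J) * (S * (C2 * (nm J * M) * ((1 + nm f) * (nm A + T)) ^ j2 * EX) *
        (T / η) ^ n) = P0 * (K2 * (M * T ^ n * (S * (nm A + T) ^ j2 * EX))) := by
      rw [hK2, mul_pow, div_pow, one_div, one_div, inv_pow]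
      have : nm J ≠ 0 := by positivity
      field_simp
    rw [e1]
    exact mul_le_of_le_one_left (by positivity) hP1
  refine (add_le_add hpart1 hpart2).trans ?_
  have hEX0 : 0 < EX := Real.exp_pos _
  have hJA : 0 ≤ nm (J * A) := by rw [nm_mul]; positivity
  have t1 : 0 ≤ M * T ^ n * (nm A * nm J * nm (J * A) ^ ((m : ℝ) / n) * L) := by positivity
  have t2 : 0 ≤ M * T ^ n * (S * (nm A + T) ^ j2 * EX) := by positivity
  have e : (K1 + K2) * M * T ^ n * (nm A * nm J * nm (J * A) ^ ((m : ℝ) / n) * L +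
      S * (nm A + T) ^ j2 * EX) =
      K1 * (M * T ^ n * (nm A * nm J * nm (J * A) ^ ((m : ℝ) / n) * L)) +
      K2 * (M * T ^ n * (S * (nm A + T) ^ j2 * EX)) +
      (K2 * (M * T ^ n * (nm A * nm J * nm (J * A) ^ ((m : ℝ) / n) * L)) +
      K1 * (M * T ^ n * (S * (nm A + T) ^ j2 * EX))) := by ring
  rw [e]
  have : 0 ≤ K2 * (M * T ^ n * (nm A * nm J * nm (J * A) ^ ((m : ℝ) / n) * L)) +
      K1 * (M * T ^ n * (S * (nm A + T) ^ j2 * EX)) := by positivity
  linarith

end Pool.Agent.H61.NVP_GAV
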